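import Pool.Agent.helper7.SC.Defs
import Pool.Agent.helper85.SC.DER

set_option autoImplicit false

/-! Iterated derivatives of polynomials and of power series; comparison with weighted components. -/

namespace Pool.Agent.helper82.SC

open MvPolynomial Pool.Agent.helper5.NBS Pool.Agent.helper7.SC

/-- iterated partial derivatives of polynomials -/
noncomputable def pdP : List (Fin 2) → R2 →ₗ[ℂ] R2
  | [] => LinearMap.id
  | k :: w => (pderiv k : Derivation ℂ R2 R2).toLinearMap ∘ₗ pdP w

lemma pdP_nil (P : R2) : pdP [] P = P := rfl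

lemma pdP_cons (k : Fin 2) (w : List (Fin 2)) (P : R2) : pdP (k :: w) P = pderiv k (pdP w P) := rfl

/-- the exponent of a word -/
noncomputable def cntw : List (Fin 2) → (Fin 2 →₀ ℕ)
  | [] => 0
  | k :: w => Finsupp.single k 1 + cntw w

lemma coeff_pdP (w : List (Fin 2)) : ∀ m : Fin 2 →₀ ℕ, ∃ c : ℂ, c ≠ 0 ∧
    ∀ Q : R2, coeff m (pdP w Q) = c * coeff (m + cntw w) Q := by
  induction w with
  | nil =>
    intro m
    refine ⟨1, one_ne_zero, fun Q => ?_⟩
    rw [pdP_nil, cntw, add_zero, one_mul]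
  | cons k w ih =>
    intro m
    obtain ⟨c, hc, h⟩ := ih (m + Finsupp.single k 1)
    refine ⟨c * ((m k : ℂ) + 1), mul_ne_zero hc (by exact_mod_cast Nat.succ_ne_zero (m k)), ?_⟩
    intro Q
    rw [pdP_cons, coeff_pderiv, h, cntw, add_assoc]
    ring

/-- weights of the variables -/
def wtv (N : ℕ) (k : Fin 2) : ℕ := if k = 0 then 1 else N

/-- weight of a word -/
def wtl (N : ℕ) (w : List (Fin 2)) : ℕ := (w.map (wtv N)).sum

lemma wtl_cons (N : ℕ) (k : Fin 2) (w : List (Fin 2)) : wtl N (k :: w) = wtv N k + wtl N w := by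
  simp [wtl]

lemma weight_add_single (N : ℕ) (m : Fin 2 →₀ ℕ) (k : Fin 2) :
    (m + Finsupp.single k 1 : Fin 2 →₀ ℕ) 0 + N * (m + Finsupp.single k 1 : Fin 2 →₀ ℕ) 1 =
      m 0 + N * m 1 + wtv N k := by
  fin_cases k
  · simp [wtv]
    ring
  · simp [wtv]
    ring

lemma weight_cntw (N : ℕ) (w : List (Fin 2)) : cntw w 0 + N * cntw w 1 = wtl N w := by
  induction w with
  | nil => simp [cntw, wtl]
  | cons k w ih =>
    rw [wtl_cons, cntw, add_comm (Finsupp.single k 1), weight_add_single, ih]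
    ring

section S

variable {N : ℕ} {S : MvPowerSeries (Fin 2) ℂ →ₐ[ℂ] PowerSeries R2}
  (hS : ∀ Φ s k, coeff k (PowerSeries.coeff s (S Φ)) =
      if k 0 + N * k 1 = s then MvPowerSeries.coeff k Φ else 0)

include hS

lemma S_pd (k : Fin 2) (Φ : MvPowerSeries (Fin 2) ℂ) (s : ℕ) :
    PowerSeries.coeff s (S (pd k Φ)) = pderiv k (PowerSeries.coeff (s + wtv N k) (S Φ)) := by
  ext m
  rw [hS, coeff_pderiv, hS, weight_add_single]
  by_cases h : m 0 + N * m 1 = s
  · rw [if_pos h, if_pos (by rw [h])]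
    show ((m k : ℂ) + 1) * _ = _
    ring
  · rw [if_neg h, if_neg (by omega), zero_mul]

lemma S_pdw (w : List (Fin 2)) (Φ : MvPowerSeries (Fin 2) ℂ) : ∀ s : ℕ,
    PowerSeries.coeff s (S (pdw w Φ)) = pdP w (PowerSeries.coeff (s + wtl N w) (S Φ)) := by
  induction w with
  | nil =>
    intro s
    rfl
  | cons k w ih =>
    intro s
    rw [pdw, S_pd hS, ih, pdP_cons, wtl_cons, add_assoc]

lemma pdP_low (w : List (Fin 2)) (Φ : MvPowerSeries (Fin 2) ℂ) {m : ℕ} (hm : m < wtl N w) :
    pdP w (PowerSeries.coeff m (S Φ)) = 0 := by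
  ext k
  obtain ⟨c, -, h⟩ := coeff_pdP w k
  rw [h, hS, if_neg, mul_zero, coeff_zero]
  have h1 := weight_cntw N w
  have h2 : (k + cntw w) 0 = k 0 + cntw w 0 := rfl
  have h3 : (k + cntw w) 1 = k 1 + cntw w 1 := rfl
  have h4 : N * (k + cntw w) 1 = N * k 1 + N * cntw w 1 := by rw [h3, mul_add]
  omega

lemma S_injective : Function.Injective S := by
  rw [injective_iff_map_eq_zero]
  intro Φ hΦ
  ext k
  have h := hS Φ (k 0 + N * k 1) k
  rw [if_pos rfl, hΦ, map_zero, coeff_zero] at h
  rw [← h, map_zero]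

/-- the power series `∑ (∂^w Φ_s)(q) t^s` is `t^{wt w}` times the value of `∂^w Φ` -/
lemma shift_eq (w : List (Fin 2)) (Φ : MvPowerSeries (Fin 2) ℂ) (q : Fin 2 → ℂ) :
    (PowerSeries.X : PowerSeries ℂ) ^ wtl N w * PowerSeries.map (eval q) (S (pdw w Φ)) =
      PowerSeries.mk fun m => eval q (pdP w (PowerSeries.coeff m (S Φ))) := by
  ext m
  rw [PowerSeries.coeff_X_pow_mul', PowerSeries.coeff_mk]
  split_ifs with h
  · rw [PowerSeries.coeff_map, S_pdw hS, Nat.sub_add_cancel h]
  · rw [pdP_low hS w Φ (by omega), map_zero]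

end S

lemma trans_pderiv (p : Fin 2 → ℂ) (k : Fin 2) (F : R2) :
    trans p (pderiv k F) = pderiv k (trans p F) := by
  induction F using MvPolynomial.induction_on with
  | C a => rw [pderiv_C, trans_C, pderiv_C, map_zero]
  | add f g hf hg => rw [map_add, map_add, hf, hg, map_add, map_add]
  | mul_X f i hf =>
    rw [pderiv_mul, map_add, map_mul, map_mul, hf, map_mul, pderiv_mul]
    congr 1
    rw [trans_X, map_add, pderiv_C, add_zero]
    congr 1
    by_cases h : i = k
    · subst h
      rw [pderiv_X_self, map_one]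
    · rw [pderiv_X_of_ne (fun h' => h h'), map_zero]

lemma trans_pdP (p : Fin 2 → ℂ) (w : List (Fin 2)) (F : R2) :
    trans p (pdP w F) = pdP w (trans p F) := by
  induction w with
  | nil => rfl
  | cons k w ih => rw [pdP_cons, pdP_cons, trans_pderiv, ih]

lemma coeff_zero_trans (p : Fin 2 → ℂ) (F : R2) : coeff 0 (trans p F) = eval p F := by
  have : (constantCoeff : R2 →+* ℂ).comp (trans p : R2 →+* R2) = eval p := by
    apply MvPolynomial.ringHom_ext
    · intro r
      simp [trans_C]
    · intro i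
      simp [trans_X]
  have h3 := congrArg (fun f : R2 →+* ℂ => f F) this
  simpa [constantCoeff_eq] using h3

/-- the word `0^a 1^b` -/
def word (a b : ℕ) : List (Fin 2) := List.replicate a 0 ++ List.replicate b 1

lemma word_length (a b : ℕ) : (word a b).length = a + b := by
  simp [word]

lemma cntw_replicate_one (b : ℕ) : cntw (List.replicate b 1) = Finsupp.single 1 b := by
  induction b with
  | zero => simp [cntw]
  | succ b ih =>
    rw [List.replicate_succ, cntw, ih, ← Finsupp.single_add, add_comm]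

lemma cntw_word (a b : ℕ) : cntw (word a b) = Finsupp.single 0 a + Finsupp.single 1 b := by
  induction a with
  | zero =>
    rw [word, List.replicate_zero, List.nil_append, cntw_replicate_one, Finsupp.single_zero,
      zero_add]
  | succ a ih =>
    have h : word (a + 1) b = 0 :: word a b := by
      simp [word, List.replicate_succ]
    rw [h, cntw, ih, ← add_assoc, ← Finsupp.single_add, add_comm 1 a]

lemma mem_pow_of_eval {p : Fin 2 → ℂ} {M : ℕ} {F : R2}
    (h : ∀ a b, a + b < M → eval p (pdP (word a b) F) = 0) : F ∈ ptIdeal p ^ M := by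
  rw [mem_ptIdeal_pow]
  intro n hn
  rw [degree_eq] at hn
  obtain ⟨c, hc, h1⟩ := coeff_pdP (word (n 0) (n 1)) 0
  have h2 := h1 (trans p F)
  rw [← trans_pdP, coeff_zero_trans, h _ _ hn, zero_add] at h2
  have h3 : cntw (word (n 0) (n 1)) = n := by
    rw [cntw_word]
    ext i
    fin_cases i <;> simp
  rw [h3] at h2
  rcases mul_eq_zero.mp h2.symm with h4 | h4
  · exact absurd h4 hc
  · exact h4

end Pool.Agent.helper82.SC
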