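import Pool.Agent.helper82.SC.SEMa
import Pool.Agent.helper25.SC.MIN
import Pool.Agent.helper25.SC.BAS
import Pool.Agent.helper25.SC.VAN

set_option autoImplicit false

/-! Semicontinuity: the linear system with very general base points is at most as large as the
weighted plane system. -/

namespace Pool.Agent.helper7.SC

open MvPolynomial Pool.Agent.helper5.NBS Pool.Agent.helper82.SC

private lemma eval_of_mem_mp {R : Type} [CommRing R] [Algebra ℂ R] {n : ℕ} {x : Fin n → R}
    (hx : Algebra.adjoin ℂ (Set.range x) = ⊤) {p : Fin n → ℂ} (hp : OnU x p)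
    {f : MvPolynomial (Fin n) ℂ} (hf : aeval x f ∈ mp x p) : eval p f = 0 := by
  have hsurj : Function.Surjective (aeval x : MvPolynomial (Fin n) ℂ →ₐ[ℂ] R) := by
    rw [← AlgHom.range_eq_top, ← Algebra.adjoin_range_eq_range_aeval, hx]
  have h1 : mp x p = Ideal.map (aeval x : MvPolynomial (Fin n) ℂ →ₐ[ℂ] R)
      (Ideal.span (Set.range fun l => (X l - C (p l) : MvPolynomial (Fin n) ℂ))) := by
    rw [Ideal.map_span, mp, ← Set.range_comp]
    congr 1
    ext y
    simp
  rw [h1, Ideal.mem_map_iff_of_surjective _ hsurj] at hf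
  obtain ⟨g, hg, hgf⟩ := hf
  have h2 : eval p (f - g) = 0 := hp _ (by rw [map_sub, hgf, sub_self])
  have h3 : eval p g = 0 := by
    have h4 : Ideal.span (Set.range fun l => (X l - C (p l) : MvPolynomial (Fin n) ℂ)) ≤
        RingHom.ker (eval p) := by
      rw [Ideal.span_le]
      rintro _ ⟨l, rfl⟩
      simp [RingHom.mem_ker]
    exact h4 hg
  rw [map_sub, h3, sub_zero] at h2
  exact h2

theorem semicont {R : Type} [CommRing R] [IsDomain R] [Algebra ℂ R] {n : ℕ} {x : Fin n → R}
    (hx : Algebra.adjoin ℂ (Set.range x) = ⊤) (N : ℕ) (hN : 0 < N)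
    (τ : R →ₐ[ℂ] MvPowerSeries (Fin 2) ℂ) (hτ : Function.Injective τ) (c0 : ℕ)
    (hord : ∀ (a : ℕ) (F : R), F ∈ W x a → F ≠ 0 →
      ∃ k : Fin 2 →₀ ℕ, k 0 + N * k 1 ≤ N * a + c0 ∧ MvPowerSeries.coeff k (τ F) ≠ 0)
    (δ : R) (E : List (Fin 2) → R →ₗ[ℂ] R)
    (hE : ∀ w F, τ (E w F) = τ δ ^ (2 * w.length) * pdw w (τ F))
    (hEm : ∀ (m : Ideal R) (w : List (Fin 2)) (M : ℕ) (F : R), F ∈ m ^ M →
        E w F ∈ m ^ (M - w.length))
    (S : MvPowerSeries (Fin 2) ℂ →ₐ[ℂ] PowerSeries R2)
    (hS : ∀ Φ s k, coeff k (PowerSeries.coeff s (S Φ)) =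
      if k 0 + N * k 1 = s then MvPowerSeries.coeff k Φ else 0)
    {r : ℕ} (q : Fin r → Fin 2 → ℂ)
    (hq : ∀ i, PowerSeries.map (eval (q i)) (S (τ δ)) ≠ 0) (a M : ℕ) :
    ∃ g : MvPolynomial (Fin r × Fin n) ℂ,
      (∃ p : Fin r → Fin n → ℂ, (∀ i, OnU x (p i)) ∧ eval (fun il => p il.1 il.2) g ≠ 0) ∧
      ∀ p : Fin r → Fin n → ℂ, (∀ i, OnU x (p i)) → eval (fun il => p il.1 il.2) g ≠ 0 →
        Module.finrank ℂ (Lsys x a (fun i => mp x (p i)) M) ≤
          Module.finrank ℂ (Vsys N (N * a + c0) M q) := by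
  classical
  have hfinW : Module.Finite ℂ (W x a) := by
    unfold W
    infer_instance
  have hSinj : Function.Injective S := S_injective hS
  let σ : (W x a) →ₗ[ℂ] PowerSeries R2 := S.toLinearMap ∘ₗ τ.toLinearMap ∘ₗ (W x a).subtype
  have hσv : ∀ F : W x a, σ F = S (τ F.1) := fun F => rfl
  have hσ : Function.Injective σ := hSinj.comp (hτ.comp (Submodule.injective_subtype _))
  obtain ⟨b, wt, hb1, hb2⟩ := exists_adapted σ hσ N (by
    intro F s k h
    rw [hσv, hS] at h
    by_contra h'
    exact h (if_neg h'))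
  set P : Fin (Module.finrank ℂ (W x a)) → R2 := fun j => PowerSeries.coeff (wt j) (σ (b j)) with hP
  have hwt : ∀ j, wt j ≤ N * a + c0 := by
    intro j
    obtain ⟨k, hk1, hk2⟩ := hord a (b j).1 (b j).2 (by
      intro h
      exact b.ne_zero j (Subtype.ext h))
    by_contra hlt
    have h1 := hb1 j (k 0 + N * k 1) (by omega)
    have h2 := hS (τ (b j).1) (k 0 + N * k 1) k
    rw [if_pos rfl, ← hσv, h1, coeff_zero] at h2
    exact hk2 h2.symm
  -- rows
  let J := Fin r × {c : Fin M × Fin M // (c.1 : ℕ) + c.2 < M}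
  let wd : J → List (Fin 2) := fun u => word u.2.1.1 u.2.1.2
  have hwd : ∀ u, (wd u).length < M := fun u => by
    rw [word_length]
    exact u.2.2
  let E0 : Matrix J (Fin (Module.finrank ℂ (W x a))) ℂ := fun u j =>
    eval (q u.1) (pdP (wd u) (P j))
  -- the plane system
  have hfinS : Finite {n : Fin 2 →₀ ℕ | n 0 + N * n 1 ≤ N * a + c0} := by
    apply Finite.of_injective (β := Fin (N * a + c0 + 1) × Fin (N * a + c0 + 1))
      (fun n => (⟨n.1 0, by
          have h := n.2
          rw [Set.mem_ofPred_eq] at h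
          omega⟩, ⟨n.1 1, by
          have h := n.2
          rw [Set.mem_ofPred_eq] at h
          have h1 : n.1 1 ≤ N * n.1 1 := Nat.le_mul_of_pos_left _ hN
          omega⟩))
    intro n m h
    have h0 := congrArg (fun z : Fin (N * a + c0 + 1) × Fin (N * a + c0 + 1) => (z.1 : ℕ)) h
    have h1 := congrArg (fun z : Fin (N * a + c0 + 1) × Fin (N * a + c0 + 1) => (z.2 : ℕ)) h
    apply Subtype.ext
    ext i
    fin_cases i
    · exact h0
    · exact h1
  have hfinV0 : Module.Finite ℂ
      (restrictSupport ℂ {n : Fin 2 →₀ ℕ | n 0 + N * n 1 ≤ N * a + c0}) :=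
    Module.Finite.of_basis (basisRestrictSupport ℂ _)
  have hfinV : Module.Finite ℂ (Vsys N (N * a + c0) M q) :=
    Submodule.finiteDimensional_of_le (inf_le_left : Vsys N (N * a + c0) M q ≤ _)
  have hker : Module.finrank ℂ (LinearMap.ker E0.mulVecLin) ≤
      Module.finrank ℂ (Vsys N (N * a + c0) M q) := by
    let comb : (Fin (Module.finrank ℂ (W x a)) → ℂ) →ₗ[ℂ] R2 := Fintype.linearCombination ℂ P
    have hcomb : ∀ c, comb c = ∑ j, c j • P j := fun c => rfl
    have hinj : Function.Injective comb := by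
      exact linearIndependent_iff_injective_fintypeLinearCombination.mp hb2
    have hmem : ∀ c ∈ LinearMap.ker E0.mulVecLin, comb c ∈ Vsys N (N * a + c0) M q := by
      intro c hc
      rw [LinearMap.mem_ker, Matrix.mulVecLin_apply] at hc
      refine ⟨?_, ?_⟩
      · rw [hcomb]
        refine Submodule.sum_mem _ fun j _ => Submodule.smul_mem _ _ ?_
        rw [mem_restrictSupport_iff]
        intro k hk
        have hk' : coeff k (P j) ≠ 0 := by
          rw [← mem_support_iff]
          exact hk
        rw [hP] at hk'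
        simp only at hk'
        rw [hσv, hS] at hk'
        show k 0 + N * k 1 ≤ N * a + c0
        by_cases h : k 0 + N * k 1 = wt j
        · rw [h]
          exact hwt j
        · exact absurd (if_neg h) hk'
      · refine (Submodule.mem_iInf _).mpr fun i => ?_
        rw [Submodule.restrictScalars_mem]
        apply mem_pow_of_eval
        intro c1 c2 hc12
        have h1 := congrFun hc (i, ⟨(⟨c1, by omega⟩, ⟨c2, by omega⟩), hc12⟩)
        rw [Matrix.mulVec, dotProduct, Pi.zero_apply] at h1
        rw [hcomb, map_sum, map_sum, ← h1]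
        apply Finset.sum_congr rfl
        intro j _
        rw [map_smul, smul_eval, mul_comm]
    let f : LinearMap.ker E0.mulVecLin →ₗ[ℂ] Vsys N (N * a + c0) M q :=
      (comb.domRestrict _).codRestrict _ (fun c => hmem c.1 c.2)
    apply LinearMap.finrank_le_finrank_of_injective (f := f)
    intro c d h
    apply Subtype.ext
    apply hinj
    exact congrArg Subtype.val h
  obtain ⟨ι, _, _, al, be, hal, hcard, hdet⟩ := exists_minor_of_ker E0 _ hker
  -- lifts
  have hsurj : Function.Surjective (aeval x : MvPolynomial (Fin n) ℂ →ₐ[ℂ] R) := by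
    rw [← AlgHom.range_eq_top, ← Algebra.adjoin_range_eq_range_aeval, hx]
  choose lift hlift using hsurj
  let A : Matrix ι ι (MvPolynomial (Fin r × Fin n) ℂ) := fun u v =>
    rename (fun l => ((be u).1, l)) (lift (E (wd (be u)) (b (al v)).1))
  -- the homomorphism to power series
  let ψ : Fin r → R →ₐ[ℂ] PowerSeries ℂ := fun i =>
    (PowerSeries.mapAlgHom (aeval (q i) : R2 →ₐ[ℂ] ℂ)).comp (S.comp τ)
  have hψv : ∀ i F, ψ i F = PowerSeries.map (eval (q i)) (S (τ F)) := by
    intro i F
    show PowerSeries.mapAlgHom (aeval (q i) : R2 →ₐ[ℂ] ℂ) (S (τ F)) = _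
    rw [PowerSeries.mapAlgHom_apply]
    ext m
    rw [PowerSeries.coeff_map, PowerSeries.coeff_map]
    rfl
  let Θ : MvPolynomial (Fin r × Fin n) ℂ →ₐ[ℂ] PowerSeries ℂ :=
    aeval fun il => ψ il.1 (x il.2)
  have hΘ : ∀ (i : Fin r) (f : MvPolynomial (Fin n) ℂ),
      Θ (rename (fun l => (i, l)) f) = ψ i (aeval x f) := by
    intro i f
    show aeval _ (rename _ f) = _
    rw [aeval_rename]
    rw [← AlgHom.comp_apply (ψ i) (aeval x)]
    congr 1
    apply MvPolynomial.algHom_ext
    intro l
    rw [aeval_X, AlgHom.comp_apply, aeval_X]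
    rfl
  have hΘdet : Θ A.det ≠ 0 := by
    rw [AlgHom.map_det]
    -- auxiliary matrices
    let T : Matrix ι ι (PowerSeries ℂ) := fun u v =>
      PowerSeries.map (eval (q (be u).1)) (S (pdw (wd (be u)) (τ (b (al v)).1)))
    let G : Matrix ι ι (PowerSeries ℂ) := fun u v =>
      PowerSeries.mk fun m => eval (q (be u).1)
        (pdP (wd (be u)) (PowerSeries.coeff m (S (τ (b (al v)).1))))
    let H : Matrix ι ι (PowerSeries ℂ) := fun u v =>
      PowerSeries.mk fun m => PowerSeries.coeff (m + wt (al v)) (G u v)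
    have hGH : ∀ u v, G u v = H u v * PowerSeries.X ^ wt (al v) := by
      intro u v
      ext m
      rw [PowerSeries.coeff_mul_X_pow']
      split_ifs with h
      · show _ = PowerSeries.coeff (m - wt (al v)) (PowerSeries.mk _)
        rw [PowerSeries.coeff_mk, PowerSeries.coeff_mk, Nat.sub_add_cancel h, PowerSeries.coeff_mk]
      · rw [PowerSeries.coeff_mk, ← hσv, hb1 _ _ (by omega), map_zero, map_zero]
    have hTG : ∀ u v, (PowerSeries.X : PowerSeries ℂ) ^ wtl N (wd (be u)) * T u v = G u v :=
      fun u v => shift_eq hS _ _ _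
    have hH0 : (H.map (PowerSeries.constantCoeff (R := ℂ))).det ≠ 0 := by
      have : H.map (PowerSeries.constantCoeff (R := ℂ)) = E0.submatrix be al := by
        ext u v
        rw [Matrix.map_apply, Matrix.submatrix_apply,
          ← PowerSeries.coeff_zero_eq_constantCoeff_apply, PowerSeries.coeff_mk, zero_add,
          PowerSeries.coeff_mk]
        rfl
      rw [this]
      exact hdet
    have hHdet : H.det ≠ 0 := by
      intro h
      apply hH0
      have h1 := (PowerSeries.constantCoeff (R := ℂ)).map_det H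
      rw [h, map_zero] at h1
      exact h1.symm
    have hGdet : G.det = H.det * ∏ v, PowerSeries.X ^ wt (al v) := by
      have : G = H * Matrix.diagonal fun v => PowerSeries.X ^ wt (al v) := by
        ext1 u v
        rw [Matrix.mul_diagonal, hGH]
      rw [this, Matrix.det_mul, Matrix.det_diagonal]
    have hGdet0 : G.det ≠ 0 := by
      rw [hGdet]
      exact mul_ne_zero hHdet (Finset.prod_ne_zero_iff.mpr fun v _ =>
        pow_ne_zero _ PowerSeries.X_ne_zero)
    have hTdet : T.det ≠ 0 := by
      intro h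
      apply hGdet0
      have : G = (Matrix.diagonal fun u => (PowerSeries.X : PowerSeries ℂ) ^ wtl N (wd (be u))) *
          T := by
        ext1 u v
        rw [Matrix.diagonal_mul, hTG]
      rw [this, Matrix.det_mul, h, mul_zero]
    have hΘA : Θ.mapMatrix A = (Matrix.diagonal fun u =>
        (PowerSeries.map (eval (q (be u).1)) (S (τ δ))) ^ (2 * (wd (be u)).length)) * T := by
      ext1 u v
      rw [Matrix.diagonal_mul]
      show Θ (rename _ _) = _
      rw [hΘ, hlift, hψv, hE, map_mul, map_pow, map_mul, map_pow]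
    have : Θ.mapMatrix A = A.map Θ := rfl
    rw [hΘA, Matrix.det_mul, Matrix.det_diagonal]
    exact mul_ne_zero (Finset.prod_ne_zero_iff.mpr fun u _ => pow_ne_zero _ (hq _)) hTdet
  refine ⟨A.det, ?_, ?_⟩
  · by_contra hcon
    push Not at hcon
    apply hΘdet
    apply eval_zero_of_vanishing x Θ _ _ hcon
    intro i f hf
    rw [hΘ, hf, map_zero]
  · intro p hp hgp
    -- evaluation matrix
    let Ep : Matrix J (Fin (Module.finrank ℂ (W x a))) ℂ := fun u j =>
      eval (p u.1) (lift (E (wd u) (b j).1))
    have hEdet : (Ep.submatrix be al).det ≠ 0 := by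
      have h1 := (eval (fun il : Fin r × Fin n => p il.1 il.2)).map_det A
      have h2 : (eval (fun il : Fin r × Fin n => p il.1 il.2)).mapMatrix A =
          Ep.submatrix be al := by
        ext u v
        show eval _ (rename _ _) = _
        rw [eval_rename]
        rfl
      rw [h2] at h1
      rw [← h1]
      exact hgp
    have h3 := ker_of_minor Ep al be hal hEdet
    have h4 : Module.finrank ℂ (Lsys x a (fun i => mp x (p i)) M) ≤
        Module.finrank ℂ (LinearMap.ker Ep.mulVecLin) := by
      let rp : (Lsys x a (fun i => mp x (p i)) M) →ₗ[ℂ]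
          (Fin (Module.finrank ℂ (W x a)) → ℂ) :=
        b.equivFun.toLinearMap ∘ₗ Submodule.inclusion (inf_le_left)
      have hrp : ∀ F, rp F ∈ LinearMap.ker Ep.mulVecLin := by
        intro F
        rw [LinearMap.mem_ker, Matrix.mulVecLin_apply]
        funext u
        obtain ⟨hF1, hF2⟩ := F.2
        have hF3 : F.1 ∈ mp x (p u.1) ^ M := by
          have := (Submodule.mem_iInf _).mp hF2 u.1
          exact this
        have hsum : F.1 = ∑ j, rp F j • (b j).1 := by
          have h5 := b.sum_equivFun ⟨F.1, hF1⟩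
          have h6 := congrArg Subtype.val h5
          rw [AddSubmonoidClass.coe_finsetSum] at h6
          exact h6.symm
        have h7 : aeval x (∑ j, rp F j • lift (E (wd u) (b j).1)) = E (wd u) F.1 := by
          rw [map_sum]
          simp only [map_smul, hlift]
          conv_rhs => rw [hsum, map_sum]
          simp only [map_smul]
        have h8 : aeval x (∑ j, rp F j • lift (E (wd u) (b j).1)) ∈ mp x (p u.1) := by
          rw [h7]
          have h9 := hEm _ (wd u) M F.1 hF3
          have h10 : M - (wd u).length ≠ 0 := by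
            have := hwd u
            omega
          exact Ideal.pow_le_self h10 h9
        have h11 := eval_of_mem_mp hx (hp u.1) h8
        rw [map_sum] at h11
        rw [Matrix.mulVec, dotProduct, Pi.zero_apply, ← h11]
        apply Finset.sum_congr rfl
        intro j _
        rw [smul_eval, mul_comm]
      let f : (Lsys x a (fun i => mp x (p i)) M) →ₗ[ℂ] LinearMap.ker Ep.mulVecLin :=
        rp.codRestrict _ hrp
      apply LinearMap.finrank_le_finrank_of_injective (f := f)
      intro F G h
      have h5 : rp F = rp G := congrArg Subtype.val h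
      have h6 := congrArg Subtype.val (b.equivFun.injective h5)
      apply Subtype.ext
      exact h6
    omega

end Pool.Agent.helper7.SC
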