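import Pool.Agent.helper7.SC.Defs

set_option autoImplicit false

/-! Weighted homogeneous components of a power series in two variables, as coefficients of a power
series in one variable. -/

namespace Pool.Agent.helper7.SC

open MvPolynomial Pool.Agent.helper5.NBS

private noncomputable def bd (s : ℕ) : Fin 2 →₀ ℕ := Finsupp.equivFunOnFinite.symm fun _ => s

private lemma bd_apply (s : ℕ) (i : Fin 2) : bd s i = s := rfl

open Classical in
private noncomputable def wcomp (N s : ℕ) (Φ : MvPowerSeries (Fin 2) ℂ) : R2 :=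
  ∑ k ∈ (Finset.Iic (bd s)).filter (fun k => k 0 + N * k 1 = s),
    monomial k (MvPowerSeries.coeff k Φ)

private lemma coeff_wcomp {N : ℕ} (hN : 0 < N) (s : ℕ) (Φ : MvPowerSeries (Fin 2) ℂ)
    (k : Fin 2 →₀ ℕ) :
    coeff k (wcomp N s Φ) = if k 0 + N * k 1 = s then MvPowerSeries.coeff k Φ else 0 := by
  classical
  rw [wcomp, coeff_sum]
  simp only [coeff_monomial]
  rw [Finset.sum_ite_eq']
  by_cases h : k 0 + N * k 1 = s
  · rw [if_pos h, if_pos]
    rw [Finset.mem_filter, Finset.mem_Iic]
    refine ⟨?_, h⟩
    intro i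
    rw [bd_apply]
    have h1 : k 1 ≤ N * k 1 := Nat.le_mul_of_pos_left _ hN
    fin_cases i
    · show k 0 ≤ s
      omega
    · show k 1 ≤ s
      omega
  · rw [if_neg h, if_neg]
    rw [Finset.mem_filter]
    exact fun h' => h h'.2

theorem exists_S (N : ℕ) (hN : 0 < N) : ∃ S : MvPowerSeries (Fin 2) ℂ →ₐ[ℂ] PowerSeries R2,
    ∀ Φ s k, coeff k (PowerSeries.coeff s (S Φ)) =
      if k 0 + N * k 1 = s then MvPowerSeries.coeff k Φ else 0 := by
  classical
  let L : MvPowerSeries (Fin 2) ℂ →ₗ[ℂ] PowerSeries R2 :=
    { toFun := fun Φ => PowerSeries.mk fun s => wcomp N s Φ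
      map_add' := by
        intro Φ Ψ
        ext s k
        rw [map_add, PowerSeries.coeff_mk, PowerSeries.coeff_mk, PowerSeries.coeff_mk, coeff_add,
          coeff_wcomp hN, coeff_wcomp hN, coeff_wcomp hN, map_add]
        split_ifs <;> simp
      map_smul' := by
        intro c Φ
        ext s k
        rw [RingHom.id_apply, PowerSeries.coeff_smul, PowerSeries.coeff_mk, PowerSeries.coeff_mk,
          coeff_smul, coeff_wcomp hN, coeff_wcomp hN, MvPowerSeries.coeff_smul]
        split_ifs <;> simp }
  have hL : ∀ Φ s k, coeff k (PowerSeries.coeff s (L Φ)) =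
      if k 0 + N * k 1 = s then MvPowerSeries.coeff k Φ else 0 := by
    intro Φ s k
    show coeff k (PowerSeries.coeff s (PowerSeries.mk fun s => wcomp N s Φ)) = _
    rw [PowerSeries.coeff_mk, coeff_wcomp hN]
  refine ⟨AlgHom.ofLinearMap L ?_ ?_, hL⟩
  · ext s k
    rw [hL, MvPowerSeries.coeff_one, PowerSeries.coeff_one]
    by_cases hk : k = 0
    · subst hk
      by_cases hs : s = 0
      · subst hs
        simp
      · rw [if_neg, if_neg hs, coeff_zero]
        intro h
        apply hs
        rw [← h]
        simp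
    · rw [if_neg hk, ite_self]
      split_ifs with hs
      · rw [coeff_one, if_neg]
        exact fun h => hk h.symm
      · rw [coeff_zero]
  · intro Φ Ψ
    ext s k
    rw [hL, PowerSeries.coeff_mul, coeff_sum]
    simp only [coeff_mul, hL]
    rw [Finset.sum_comm]
    have key : ∀ x ∈ Finset.HasAntidiagonal.antidiagonal k, ∑ y ∈ Finset.HasAntidiagonal.antidiagonal s,
        (if x.1 0 + N * x.1 1 = y.1 then MvPowerSeries.coeff x.1 Φ else 0) *
          (if x.2 0 + N * x.2 1 = y.2 then MvPowerSeries.coeff x.2 Ψ else 0) =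
        if k 0 + N * k 1 = s then MvPowerSeries.coeff x.1 Φ * MvPowerSeries.coeff x.2 Ψ else 0 := by
      intro x hx
      rw [Finset.HasAntidiagonal.mem_antidiagonal] at hx
      have e0 : x.1 0 + x.2 0 = k 0 := by rw [← hx]; rfl
      have e1 : x.1 1 + x.2 1 = k 1 := by rw [← hx]; rfl
      have e2 : N * k 1 = N * x.1 1 + N * x.2 1 := by rw [← e1, mul_add]
      by_cases h : k 0 + N * k 1 = s
      · rw [if_pos h, Finset.sum_eq_single (x.1 0 + N * x.1 1, x.2 0 + N * x.2 1)]
        · simp
        · intro y hy hne
          rw [Finset.HasAntidiagonal.mem_antidiagonal] at hy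
          by_cases h1 : x.1 0 + N * x.1 1 = y.1
          · rw [if_neg (c := x.2 0 + N * x.2 1 = y.2), mul_zero]
            intro h2
            exact hne (Prod.ext h1.symm h2.symm)
          · rw [if_neg h1, zero_mul]
        · intro hy
          exfalso
          apply hy
          rw [Finset.HasAntidiagonal.mem_antidiagonal]
          omega
      · rw [if_neg h]
        apply Finset.sum_eq_zero
        intro y hy
        rw [Finset.HasAntidiagonal.mem_antidiagonal] at hy
        by_cases h1 : x.1 0 + N * x.1 1 = y.1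
        · rw [if_neg (c := x.2 0 + N * x.2 1 = y.2), mul_zero]
          intro h2
          apply h
          omega
        · rw [if_neg h1, zero_mul]
    rw [Finset.sum_congr rfl key]
    by_cases h : k 0 + N * k 1 = s
    · simp only [if_pos h]
      rw [MvPowerSeries.coeff_mul]
    · simp only [if_neg h, Finset.sum_const_zero]

end Pool.Agent.helper7.SC
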